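import Pool.Agent.H354.BG.Stm

/-! Project BG, task BLK: the word problem of one block. -/

set_option autoImplicit false

namespace Pool.Agent.H881.BG.BLK

open Pool.Agent.H482R3.EA (W inv ev)
open Pool.Agent.H482R3.EB (tot wp alt rels AR gR TR SolvWP t_RELR t_LIFTR)
open Pool.Agent.H354.BG

theorem alt_map {S T : Type} (f : S → T) (n : ℕ) :
    ∀ s t : S, (alt s t n).map f = alt (f s) (f t) n := by
  induction n with
  | zero => intro s t; rfl
  | succ n ih =>
    intro s t
    show f s :: (alt t s n).map f = f s :: alt (f t) (f s) n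
    rw [ih]

theorem alt_prod_one {G : Type} [Group G] (n : ℕ) : (alt (1 : G) 1 n).prod = 1 := by
  induction n with
  | zero => rfl
  | succ n ih =>
    show ((1 : G) :: alt 1 1 n).prod = 1
    rw [List.prod_cons, ih, one_mul]

theorem alt_even {G : Type} [Group G] (x y : G) (k : ℕ) :
    (alt x y (2 * k)).prod = (x * y) ^ k := by
  have h := alt_two (G := G) id k x y
  rw [List.map_id] at h
  exact h

section

variable (D : Dat) (b : Fin D.r) {k : ℕ} (e : Fin k ≃ {i : Fin D.n // D.β i = b})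

/-- the labels of the block -/
def mb : Fin k → Fin k → ℕ := fun x y => D.m (e x) (e y)

/-- the letters of the block -/
def gl (a : Fin D.n × Bool) : Option (Fin k × Bool) :=
  if h : D.β a.1 = b then some (e.symm ⟨a.1, h⟩, a.2) else none

/-- the images of the generators -/
noncomputable def fs (s : Fin D.n) : AR (mb D b e) :=
  if h : D.β s = b then gR (mb D b e) (e.symm ⟨s, h⟩) else 1

theorem ev_gl (u : W (Fin D.n)) :
    ev (gR (mb D b e)) (u.filterMap (gl D b e)) = ev (fs D b e) u := by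
  induction u with
  | nil => rfl
  | cons a u ih =>
    have h1 : ev (fs D b e) (a :: u) =
        (if a.2 then fs D b e a.1 else (fs D b e a.1)⁻¹) * ev (fs D b e) u := by
      unfold ev
      rw [List.map_cons, List.prod_cons]
    rw [h1, ← ih, List.filterMap_cons]
    by_cases h : D.β a.1 = b
    · have h2 : gl D b e a = some (e.symm ⟨a.1, h⟩, a.2) := by
        unfold gl
        rw [dif_pos h]
      have h3 : fs D b e a.1 = gR (mb D b e) (e.symm ⟨a.1, h⟩) := by
        unfold fs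
        rw [dif_pos h]
      rw [h2, h3]
      unfold ev
      rw [List.map_cons, List.prod_cons]
    · have h2 : gl D b e a = none := by
        unfold gl
        rw [dif_neg h]
      have h3 : fs D b e a.1 = 1 := by
        unfold fs
        rw [dif_neg h]
      rw [h2, h3, inv_one, ite_self, one_mul]

end

theorem comp_pred {α β : Type} [Primcodable α] [Primcodable β] {p : β → Prop} {f : α → β}
    (hp : ComputablePred p) (hf : Computable f) : ComputablePred (fun x => p (f x)) := by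
  obtain ⟨g, hg, rfl⟩ := ComputablePred.computable_iff.1 hp
  exact ComputablePred.computable_iff.2 ⟨fun x => g (f x), hg.comp hf, rfl⟩


theorem solv_TR (D : Dat) (hd : ∀ i, D.m i i = 1) (b : Fin D.r) {k : ℕ}
    (e : Fin k ≃ {i : Fin D.n // D.β i = b}) (hW : SolvWP (mb D b e)) :
    ComputablePred (TR (mb D b e)) :=
  ComputablePred.of_eq hW fun u =>
    Pool.Agent.H482R3.EB.Asm.artr k (mb D b e) (fun _ => hd _) (fun _ _ => D.symm _ _) u

theorem fs_pos (D : Dat) (b : Fin D.r) {k : ℕ} (e : Fin k ≃ {i : Fin D.n // D.β i = b})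
    (s : Fin D.n) (h : D.β s = b) : fs D b e s = gR (mb D b e) (e.symm ⟨s, h⟩) := by
  unfold fs
  rw [dif_pos h]

theorem fs_neg (D : Dat) (b : Fin D.r) {k : ℕ} (e : Fin k ≃ {i : Fin D.n // D.β i = b})
    (s : Fin D.n) (h : D.β s ≠ b) : fs D b e s = 1 := by
  unfold fs
  rw [dif_neg h]

theorem rel1 (D : Dat) (b : Fin D.r) {k : ℕ} (e : Fin k ≃ {i : Fin D.n // D.β i = b})
    (s t : Fin D.n) (hst : s ≠ t) (h0 : D.m s t ≠ 0) :
    ((alt s t (D.m s t)).map (fs D b e)).prod = ((alt t s (D.m s t)).map (fs D b e)).prod := by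
  rw [alt_map, alt_map]
  by_cases hs : D.β s = b
  · by_cases ht : D.β t = b
    · have h5 : mb D b e (e.symm ⟨s, hs⟩) (e.symm ⟨t, ht⟩) = D.m s t := by
        unfold mb
        rw [Equiv.apply_symm_apply, Equiv.apply_symm_apply]
      have h6 := t_RELR.1 (Fin k) (mb D b e) (e.symm ⟨s, hs⟩) (e.symm ⟨t, ht⟩)
        (fun h => hst (congrArg Subtype.val (e.symm.injective h))) (by rw [h5]; exact h0)
      rw [alt_map, alt_map, h5] at h6
      rw [fs_pos D b e s hs, fs_pos D b e t ht]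
      exact h6
    · obtain ⟨j, hj⟩ := even_of_ne D s t (fun h => ht (by rw [← h, hs]))
      rw [hj, fs_neg D b e t ht, alt_even, alt_even, mul_one, one_mul]
  · by_cases ht : D.β t = b
    · obtain ⟨j, hj⟩ := even_of_ne D s t (fun h => hs (by rw [h, ht]))
      rw [hj, fs_neg D b e s hs, alt_even, alt_even, mul_one, one_mul]
    · rw [fs_neg D b e s hs, fs_neg D b e t ht]

theorem rel2 (D : Dat) (b : Fin D.r) {k : ℕ} (e : Fin k ≃ {i : Fin D.n // D.β i = b})
    (x y : Fin k) (hxy : x ≠ y) (h0 : mb D b e x y ≠ 0) :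
    ((alt x y (mb D b e x y)).map (fun x => gR D.m (e x))).prod =
      ((alt y x (mb D b e x y)).map (fun x => gR D.m (e x))).prod := by
  rw [alt_map, alt_map]
  have h6 := t_RELR.1 (Fin D.n) D.m (e x) (e y)
    (fun h => hxy (e.injective (Subtype.ext h))) h0
  rw [alt_map, alt_map] at h6
  exact h6


theorem comp1 (D : Dat) (b : Fin D.r) {k : ℕ} (e : Fin k ≃ {i : Fin D.n // D.β i = b})
    (ψ : D.A →* AR (mb D b e)) (φ : AR (mb D b e) →* D.A)
    (hψ : ∀ s, ψ (gR D.m s) = fs D b e s) (hφ : ∀ x, φ (gR (mb D b e) x) = gR D.m (e x))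
    (g : D.A) : rho D {b} g = φ (ψ g) := by
  have h := gind D (MonoidHom.eqLocus (rho D {b}) (φ.comp ψ)) (fun s => by
    show rho D {b} (gR D.m s) = (φ.comp ψ) (gR D.m s)
    rw [MonoidHom.comp_apply, rho_gR, hψ]
    by_cases hs : D.β s = b
    · rw [if_pos (Finset.mem_singleton.2 hs), fs_pos D b e s hs, hφ, Equiv.apply_symm_apply]
    · rw [if_neg (fun h => hs (Finset.mem_singleton.1 h)), fs_neg D b e s hs, map_one]) g
  exact h

theorem comp2 (D : Dat) (b : Fin D.r) {k : ℕ} (e : Fin k ≃ {i : Fin D.n // D.β i = b})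
    (ψ : D.A →* AR (mb D b e)) (φ : AR (mb D b e) →* D.A)
    (hψ : ∀ s, ψ (gR D.m s) = fs D b e s) (hφ : ∀ x, φ (gR (mb D b e) x) = gR D.m (e x))
    (x : AR (mb D b e)) : ψ (φ x) = x := by
  have h5 : Subgroup.closure (Set.range (gR (mb D b e))) ≤
      MonoidHom.eqLocus (ψ.comp φ) (MonoidHom.id _) := by
    rw [Subgroup.closure_le]
    rintro _ ⟨x, rfl⟩
    show (ψ.comp φ) (gR (mb D b e) x) = gR (mb D b e) x
    rw [MonoidHom.comp_apply, hφ, hψ, fs_pos D b e (e x) (e x).2]
    congr 1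
    exact e.symm_apply_apply x
  have h6 : Subgroup.closure (Set.range (gR (mb D b e))) = ⊤ :=
    PresentedGroup.closure_range_of _
  rw [h6] at h5
  exact h5 (Subgroup.mem_top x)

theorem hcomp (D : Dat) (b : Fin D.r) {k : ℕ} (e : Fin k ≃ {i : Fin D.n // D.β i = b}) :
    Computable (fun u : W (Fin D.n) => (u.filterMap (gl D b e) : W (Fin k))) := by
  have h7 : Primrec (fun u : List (Fin D.n × Bool) => u.filterMap (gl D b e)) :=
    Primrec.listFilterMap Primrec.id ((Primrec.dom_finite (gl D b e)).comp Primrec.snd).to₂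
  exact h7.to_comp


theorem exψ (D : Dat) (b : Fin D.r) {k : ℕ} (e : Fin k ≃ {i : Fin D.n // D.β i = b}) :
    ∃ ψ : D.A →* AR (mb D b e), (∀ s, ψ (gR D.m s) = fs D b e s) ∧
      ∀ u : W (Fin D.n), ψ (ev (gR D.m) u) = ev (fs D b e) u :=
  t_LIFTR (Fin D.n) (AR (mb D b e)) inferInstance D.m (fs D b e)
    (fun s t hst h0 => rel1 D b e s t hst h0)

theorem exφ (D : Dat) (b : Fin D.r) {k : ℕ} (e : Fin k ≃ {i : Fin D.n // D.β i = b}) :
    ∃ φ : AR (mb D b e) →* D.A, ∀ x, φ (gR (mb D b e) x) = gR D.m (e x) := by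
  obtain ⟨φ, hφ, -⟩ := t_LIFTR (Fin k) D.A inferInstance (mb D b e)
    (fun x => gR D.m (e x)) (fun x y hxy h0 => rel2 D b e x y hxy h0)
  exact ⟨φ, hφ⟩


theorem key1 (D : Dat) (b : Fin D.r) {k : ℕ} (e : Fin k ≃ {i : Fin D.n // D.β i = b})
    (ψ : D.A →* AR (mb D b e)) (φ : AR (mb D b e) →* D.A)
    (hψ : ∀ s, ψ (gR D.m s) = fs D b e s) (hφ : ∀ x, φ (gR (mb D b e) x) = gR D.m (e x))
    (g : D.A) : ψ g = 1 ↔ rho D {b} g = 1 := by
  constructor
  · intro h
    have h2 := comp1 D b e ψ φ hψ hφ g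
    rw [h, map_one] at h2
    exact h2
  · intro h
    have h2 := comp1 D b e ψ φ hψ hφ g
    have h3 := comp2 D b e ψ φ hψ hφ (ψ g)
    rw [← h2, h, map_one] at h3
    exact h3.symm

theorem key (D : Dat) (b : Fin D.r) {k : ℕ} (e : Fin k ≃ {i : Fin D.n // D.β i = b})
    (u : W (Fin D.n)) :
    TR (mb D b e) (u.filterMap (gl D b e)) ↔ rho D {b} (gEl D u) = 1 := by
  obtain ⟨ψ, hψ, hψe⟩ := exψ D b e
  obtain ⟨φ, hφ⟩ := exφ D b e
  have h1 : ev (gR (mb D b e)) (u.filterMap (gl D b e)) = ψ (gEl D u) :=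
    (ev_gl D b e u).trans (hψe u).symm
  have h3 := key1 D b e ψ φ hψ hφ (gEl D u)
  rw [← h1] at h3
  exact h3

theorem t_BLK (hbas : S_BASX) : S_BLK := by
  intro D hd b k e hW
  have h1 : ComputablePred (TR (mb D b e)) := solv_TR D hd b e hW
  have h2 := comp_pred h1 (hcomp D b e)
  exact ComputablePred.of_eq h2 fun u => key D b e u

end Pool.Agent.H881.BG.BLK
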