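import Pool.Agent.H929.BG.Stm

/-! Project BG: the numerical choice of the initial data, independence (`S_NumS`). -/

set_option autoImplicit false

open Finset

namespace Pool.Agent.H881.BG

open Pool.Agent.H929.BW Pool.Agent.H929.BG

/-- the root -/
noncomputable def rt (n : ℕ) (V : ℝ) : ℝ := V ^ ((1 : ℝ) / (n + 1))

lemma rt_nonneg (n : ℕ) {V : ℝ} (hV : 0 ≤ V) : 0 ≤ rt n V := Real.rpow_nonneg hV _

lemma rt_pow (n : ℕ) {V : ℝ} (hV : 0 ≤ V) : rt n V ^ (n + 1) = V := by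
  unfold rt
  rw [← Real.rpow_natCast, ← Real.rpow_mul hV, one_div]
  push_cast
  rw [inv_mul_cancel₀ (by positivity), Real.rpow_one]

lemma rt_pow' (n : ℕ) {V : ℝ} (hV : 0 ≤ V) : rt n V ^ n = V ^ ((n : ℝ) / (n + 1)) := by
  unfold rt
  rw [← Real.rpow_natCast, ← Real.rpow_mul hV]
  congr 1
  ring

lemma pow_le_of {n : ℕ} {h x θ : ℝ} (hh : 0 ≤ h) (hx : 0 ≤ x) (hθ : 1 ≤ θ)
    (h1 : h ^ (n + 1) ≤ θ * x ^ (n + 1)) : h ^ n ≤ θ * x ^ n := by
  have hxn : 0 ≤ x ^ n := pow_nonneg hx n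
  rcases le_total h x with h2 | h2
  · have := pow_le_pow_left₀ hh h2 n
    nlinarith
  · rcases hh.eq_or_lt with h3 | h3
    · have hx0 : x = 0 := le_antisymm (by rw [h3]; exact h2) hx
      rw [← h3, hx0]
      have : (0 : ℝ) ≤ 0 ^ n := pow_nonneg le_rfl n
      nlinarith
    · refine le_of_mul_le_mul_right ?_ h3
      calc h ^ n * h = h ^ (n + 1) := by ring
        _ ≤ θ * x ^ (n + 1) := h1
        _ = θ * x ^ n * x := by ring
        _ ≤ θ * x ^ n * h := mul_le_mul_of_nonneg_left h2 (by positivity)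

theorem t_NumS : S_NumS := by
  intro n Λ C hn hΛ hC
  obtain ⟨K, hKdef⟩ : ∃ K : ℝ, K = 1 + C * (1 + (n : ℝ) / 2) ^ n + (36 * (1 + Λ)) ^ (n + 1) +
      5 / 2 * (24 * (1 + (n : ℝ) / 2 + Λ)) ^ (n + 1) + C ^ (n + 1) := ⟨_, rfl⟩
  have hn0 : (0 : ℝ) ≤ n := Nat.cast_nonneg n
  have p1 : 0 ≤ C * (1 + (n : ℝ) / 2) ^ n := by positivity
  have p2 : 0 ≤ (36 * (1 + Λ)) ^ (n + 1) := by positivity
  have p3 : 0 ≤ 5 / 2 * (24 * (1 + (n : ℝ) / 2 + Λ)) ^ (n + 1) := by positivity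
  have p4 : 0 ≤ C ^ (n + 1) := by positivity
  have hK1 : 1 ≤ K := by rw [hKdef]; linarith
  have k1 : C * (1 + (n : ℝ) / 2) ^ n ≤ K := by rw [hKdef]; linarith
  have k2 : (36 * (1 + Λ)) ^ (n + 1) ≤ K := by rw [hKdef]; linarith
  have k3 : 5 / 2 * (24 * (1 + (n : ℝ) / 2 + Λ)) ^ (n + 1) ≤ K := by rw [hKdef]; linarith
  have k4 : C ^ (n + 1) ≤ K := by rw [hKdef]; linarith
  have hK0 : 0 ≤ K := by linarith
  clear hKdef
  refine ⟨K, hK1, fun A r d hA hd => ?_⟩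
  obtain ⟨X, hX⟩ : ∃ X : ℝ, X = (d : ℝ) / 3 + (2 * n + 3) := ⟨_, rfl⟩
  have hd0 : (0 : ℝ) ≤ d := Nat.cast_nonneg d
  have hX0 : 0 < X := by rw [hX]; positivity
  rw [← hX]
  -- the volumes
  obtain ⟨V, hV⟩ : ∃ V : ℕ → ℝ, V = fun v => (r v : ℝ) * PP n v := ⟨_, rfl⟩
  have hV0 : ∀ v, 0 ≤ V v := fun v => by
    rw [hV]; exact mul_nonneg (Nat.cast_nonneg _) (PP_nonneg' n v)
  have hVg : ∀ v, V v = r v * gg n v ^ (n + 1) := fun v => by rw [hV, gg_pow]
  have hg1 : ∀ v ∈ A, 1 ≤ gg n v := fun v hv => by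
    have h1 : (1 : ℝ) ≤ v := by exact_mod_cast hA.one v hv
    exact h1.trans (le_gg n v)
  have hVK : ∀ v ∈ A, K * gg n v ^ (n + 1) ≤ V v := fun v hv => by
    rw [hVg]
    exact mul_le_mul_of_nonneg_right (hA.many v hv) (pow_nonneg (gg_nonneg n v) _)
  have hVK' : ∀ v ∈ A, K ≤ V v := fun v hv => by
    refine le_trans ?_ (hVK v hv)
    have : 1 ≤ gg n v ^ (n + 1) := one_le_pow₀ (hg1 v hv)
    nlinarith
  have hVr : ∀ v, (r v : ℝ) * (v : ℝ) ^ (n + 1) ≤ V v := fun v => by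
    rw [hV]
    exact mul_le_mul_of_nonneg_left (PP_lower n (Nat.cast_nonneg v)) (Nat.cast_nonneg _)
  obtain ⟨x, hx⟩ : ∃ x : ℕ → ℝ, x = fun v => rt n (V v) := ⟨_, rfl⟩
  have hx0 : ∀ v, 0 ≤ x v := fun v => by rw [hx]; exact rt_nonneg n (hV0 v)
  have hxN : ∀ v, x v ^ (n + 1) = V v := fun v => by rw [hx]; exact rt_pow n (hV0 v)
  -- the surfaces
  have hxs : ∀ v ∈ A, x v ^ n ≤ (1 + (n : ℝ) / 2) ^ n *
      ((r v : ℝ) * (v : ℝ) ^ (n + 1)) ^ ((n : ℝ) / (n + 1)) := fun v hv => by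
    have h0 : 0 ≤ (r v : ℝ) * (v : ℝ) ^ (n + 1) := by positivity
    rw [← rt_pow' n h0, ← mul_pow]
    refine pow_le_pow_left₀ (hx0 v) ?_ n
    refine le_of_pow_le_pow_left₀ (n := n + 1) (by omega)
      (mul_nonneg (by positivity) (rt_nonneg n h0)) ?_
    rw [hxN, mul_pow, rt_pow n h0, hV]
    have h1 : (1 : ℝ) ≤ v := by exact_mod_cast hA.one v hv
    have h2 : PP n (v : ℝ) ≤ ((1 + (n : ℝ) / 2) * v) ^ (n + 1) := by
      refine (PP_mid n (Nat.cast_nonneg v)).trans (pow_le_pow_left₀ (by positivity) ?_ _)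
      nlinarith
    calc (r v : ℝ) * PP n v ≤ r v * ((1 + (n : ℝ) / 2) * v) ^ (n + 1) :=
          mul_le_mul_of_nonneg_left h2 (Nat.cast_nonneg _)
      _ = (1 + (n : ℝ) / 2) ^ (n + 1) * (r v * (v : ℝ) ^ (n + 1)) := by rw [mul_pow]; ring
  have hsurf0 : 0 ≤ surf n A r := by
    unfold surf
    exact sum_nonneg fun v _ => Real.rpow_nonneg (by positivity) _
  obtain ⟨Q, hQ⟩ : ∃ Q : ℝ, Q = ∑ v ∈ A, (V v + C * x v ^ n) := ⟨_, rfl⟩
  have hQle : Q ≤ (3 * X) ^ (n + 1) := by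
    have h1 : ∑ v ∈ A, C * x v ^ n ≤ K * surf n A r := by
      unfold surf
      rw [mul_sum]
      refine sum_le_sum fun v hv => ?_
      have h2 : 0 ≤ ((r v : ℝ) * (v : ℝ) ^ (n + 1)) ^ ((n : ℝ) / (n + 1)) :=
        Real.rpow_nonneg (by positivity) _
      calc C * x v ^ n ≤ C * ((1 + (n : ℝ) / 2) ^ n *
          ((r v : ℝ) * (v : ℝ) ^ (n + 1)) ^ ((n : ℝ) / (n + 1))) :=
            mul_le_mul_of_nonneg_left (hxs v hv) hC
        _ = C * (1 + (n : ℝ) / 2) ^ n * ((r v : ℝ) * (v : ℝ) ^ (n + 1)) ^ ((n : ℝ) / (n + 1)) := by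
            ring
        _ ≤ _ := mul_le_mul_of_nonneg_right k1 h2
    have h3 : (d + 1 + n : ℝ) ^ (n + 1) ≤ (3 * X) ^ (n + 1) := by
      refine pow_le_pow_left₀ (by positivity) ?_ _
      rw [hX]
      linarith
    rw [hQ, sum_add_distrib]
    have h4 : ∑ v ∈ A, V v = ∑ v ∈ A, r v * PP n v := by rw [hV]
    rw [h4]
    linarith
  have hVQ : ∀ v ∈ A, V v ≤ Q := fun v hv => by
    have h1 : V v + C * x v ^ n ≤ Q := by
      rw [hQ]
      exact single_le_sum (f := fun v => V v + C * x v ^ n) (fun u _ => by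
        have := hV0 u
        have := hx0 u
        positivity) hv
    have : 0 ≤ C * x v ^ n := mul_nonneg hC (pow_nonneg (hx0 v) n)
    linarith
  obtain ⟨v₀, hv₀⟩ := hA.ne
  have hQ0 : 0 < Q := by
    have h1 := hVQ v₀ hv₀
    have h2 := hVK' v₀ hv₀
    linarith
  obtain ⟨θ, hθ⟩ : ∃ θ : ℝ, θ = (3 * X) ^ (n + 1) / Q := ⟨_, rfl⟩
  have hθ1 : 1 ≤ θ := by rw [hθ, le_div_iff₀ hQ0, one_mul]; exact hQle
  have hθQ : θ * Q = (3 * X) ^ (n + 1) := by rw [hθ, div_mul_cancel₀ _ hQ0.ne']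
  obtain ⟨U, hU⟩ : ∃ U : ℕ → ℝ, U = fun v => θ * (V v + C * x v ^ n) := ⟨_, rfl⟩
  have hU0 : ∀ v, 0 ≤ U v := fun v => by
    rw [hU]
    have := hV0 v
    have := hx0 v
    positivity
  have hUV : ∀ v, V v ≤ U v := fun v => by
    have h1 := hV0 v
    have h2 : 0 ≤ C * x v ^ n := mul_nonneg hC (pow_nonneg (hx0 v) n)
    rw [hU]
    simp only
    nlinarith
  have hUs : ∑ v ∈ A, U v = (3 * X) ^ (n + 1) := by
    rw [← hθQ, hQ, mul_sum, hU]
  obtain ⟨h, hh⟩ : ∃ h : ℕ → ℝ, h = fun v => rt n (2 / 5 * U v) := ⟨_, rfl⟩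
  have hh0 : ∀ v, 0 ≤ h v := fun v => by
    rw [hh]; exact rt_nonneg n (by have := hU0 v; positivity)
  have hhN : ∀ v, h v ^ (n + 1) = 2 / 5 * U v := fun v => by
    rw [hh]; exact rt_pow n (by have := hU0 v; positivity)
  have hXN : 0 < X ^ (n + 1) := by positivity
  have hβX : ∀ v, U v / X ^ (n + 1) * X ^ (n + 1) = U v := fun v => div_mul_cancel₀ _ hXN.ne'
  have hβs : ∑ v ∈ A, U v / X ^ (n + 1) = 3 ^ (n + 1) := by
    rw [← sum_div, hUs, mul_pow, mul_div_assoc, div_self hXN.ne', mul_one]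
  refine ⟨fun v => U v / X ^ (n + 1), h, ⟨⟨v₀, hv₀⟩, hA.one, ?_, ?_, ?_, ?_, ?_, ?_⟩, hβs, ?_⟩
  · -- big
    intro v hv
    have h1 : (36 * (gg n v + Λ)) ^ (n + 1) ≤ (3 * X) ^ (n + 1) := by
      calc (36 * (gg n v + Λ)) ^ (n + 1) ≤ (36 * (1 + Λ) * gg n v) ^ (n + 1) := by
            refine pow_le_pow_left₀ (by have := gg_nonneg n v; positivity) ?_ _
            have := hg1 v hv
            nlinarith
        _ = (36 * (1 + Λ)) ^ (n + 1) * gg n v ^ (n + 1) := by rw [mul_pow]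
        _ ≤ K * gg n v ^ (n + 1) := mul_le_mul_of_nonneg_right k2 (pow_nonneg (gg_nonneg n v) _)
        _ ≤ V v := hVK v hv
        _ ≤ Q := hVQ v hv
        _ ≤ _ := hQle
    have h2 := le_of_pow_le_pow_left₀ (n := n + 1) (by omega) (by positivity) h1
    linarith
  · -- hbig
    intro v hv
    refine le_of_pow_le_pow_left₀ (n := n + 1) (by omega) (hh0 v) ?_
    rw [hhN]
    have h1 : 5 / 2 * (24 * (gg n v + Λ)) ^ (n + 1) ≤ V v := by
      calc 5 / 2 * (24 * (gg n v + Λ)) ^ (n + 1)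
          ≤ 5 / 2 * (24 * (1 + (n : ℝ) / 2 + Λ) * gg n v) ^ (n + 1) := by
            refine mul_le_mul_of_nonneg_left (pow_le_pow_left₀
              (by have := gg_nonneg n v; positivity) ?_ _) (by norm_num)
            have := hg1 v hv
            have h3 : 0 ≤ (n : ℝ) / 2 * gg n v := by have := gg_nonneg n v; positivity
            nlinarith
        _ = 5 / 2 * (24 * (1 + (n : ℝ) / 2 + Λ)) ^ (n + 1) * gg n v ^ (n + 1) := by
            rw [mul_pow]; ring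
        _ ≤ K * gg n v ^ (n + 1) := mul_le_mul_of_nonneg_right k3 (pow_nonneg (gg_nonneg n v) _)
        _ ≤ V v := hVK v hv
    have h2 := hUV v
    linarith
  · -- used
    intro v hv hXh
    constructor
    · rw [le_div_iff₀ hXN]
      have h1 := pow_le_pow_left₀ hX0.le hXh (n + 1)
      rw [hhN] at h1
      linarith
    · have h1 : U v / X ^ (n + 1) ≤ 3 ^ (n + 1) := by
        rw [← hβs]
        exact single_le_sum (f := fun v => U v / X ^ (n + 1)) (fun u _ =>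
          div_nonneg (hU0 u) hXN.le) hv
      refine h1.trans ?_
      exact pow_le_pow_right₀ (by norm_num) (by omega)
  · -- unused
    intro v hv _
    rw [hβX, hhN]
    ring
  · -- lower
    intro w hw hlow
    have h1 : ∑ u ∈ low A w, h u ^ (n + 1) ≥ 2 / 5 * (K * (w : ℝ) ^ (n + 1)) := by
      calc ∑ u ∈ low A w, h u ^ (n + 1) = ∑ u ∈ low A w, 2 / 5 * U u :=
            sum_congr rfl fun u _ => hhN u
        _ ≥ ∑ u ∈ low A w, 2 / 5 * ((r u : ℝ) * (u : ℝ) ^ (n + 1)) := by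
            refine sum_le_sum fun u _ => ?_
            have := hVr u
            have := hUV u
            linarith
        _ = 2 / 5 * ∑ u ∈ low A w, (r u : ℝ) * (u : ℝ) ^ (n + 1) := by rw [mul_sum]
        _ ≥ _ := by
            have := hA.lower w hw hlow
            linarith
    have hw1 : (1 : ℝ) ≤ w := by exact_mod_cast hA.one w hw
    have h2 : (24 * (gg n w + Λ)) ^ (n + 1) ≤ (24 * (1 + (n : ℝ) / 2 + Λ)) ^ (n + 1) *
        (w : ℝ) ^ (n + 1) := by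
      rw [← mul_pow]
      refine pow_le_pow_left₀ (by have := gg_nonneg n w; positivity) ?_ _
      have := gg_le n w
      have h3 : 0 ≤ (n : ℝ) / 2 * (w - 1) := mul_nonneg (by positivity) (by linarith)
      have h4 : 0 ≤ Λ * (w - 1) := mul_nonneg (by linarith) (by linarith)
      nlinarith
    have h3 : 5 / 2 * (24 * (1 + (n : ℝ) / 2 + Λ)) ^ (n + 1) * (w : ℝ) ^ (n + 1) ≤
        K * (w : ℝ) ^ (n + 1) := mul_le_mul_of_nonneg_right k3 (by positivity)
    linarith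
  · -- total
    right
    have h1 : ∑ u ∈ A, h u ^ (n + 1) = 2 / 5 * (3 * X) ^ (n + 1) := by
      rw [← hUs, mul_sum]
      exact sum_congr rfl fun u _ => hhN u
    rw [h1, mul_pow]
    have h2 : (3 : ℝ) ^ (1 + 1) ≤ 3 ^ (n + 1) := pow_le_pow_right₀ (by norm_num) (by omega)
    have h3 : (5 / 2 : ℝ) * X ^ (n + 1) ≤ 3 ^ (n + 1) * X ^ (n + 1) :=
      mul_le_mul_of_nonneg_right (by norm_num at h2 ⊢; linarith) hXN.le
    linarith
  · intro v hv
    rw [hβX, ← hVg]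
    have hm : 0 ≤ min X (h v) := le_min hX0.le (hh0 v)
    have h1 : (min X (h v)) ^ n ≤ h v ^ n := pow_le_pow_left₀ hm (min_le_right _ _) n
    -- `C x ^ n ≤ V`
    have hCx : C ≤ x v := by
      refine le_of_pow_le_pow_left₀ (n := n + 1) (by omega) (hx0 v) ?_
      rw [hxN]
      exact k4.trans (hVK' v hv)
    have h2 : C * x v ^ n ≤ V v := by
      rw [← hxN, pow_succ']
      exact mul_le_mul_of_nonneg_right hCx (pow_nonneg (hx0 v) n)
    have h3 : h v ^ (n + 1) ≤ θ * x v ^ (n + 1) := by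
      rw [hhN, hxN, hU]
      simp only
      have := hV0 v
      have h4 : θ * (C * x v ^ n) ≤ θ * V v := mul_le_mul_of_nonneg_left h2 (by linarith)
      have h5 : 0 ≤ θ * V v := mul_nonneg (by linarith) this
      nlinarith
    have h4 := pow_le_of (hh0 v) (hx0 v) hθ1 h3
    have h5 : C * (min X (h v)) ^ n ≤ θ * (C * x v ^ n) := by
      calc C * (min X (h v)) ^ n ≤ C * (θ * x v ^ n) :=
            mul_le_mul_of_nonneg_left (h1.trans h4) hC
        _ = _ := by ring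
    have h6 : V v ≤ θ * V v := by
      have := hV0 v
      nlinarith
    rw [hU]
    simp only
    linarith [mul_add θ (V v) (C * x v ^ n)]

end Pool.Agent.H881.BG
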